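import Pool.Agent.Helper292.ForceCH
import Pool.Agent.H299Z.Dual.Reg

set_option autoImplicit false

namespace Pool.Agent.Results.MP_414e75_gt.AConsistentNo

/-- (1) Some forcing notion preserves omega one and forces CH. (2) CH implies that there is a
regular Hausdorff hereditarily Lindelof space with a clopen neighbourhood assignment `N` such that
for no discrete subspace `D` (closed or not) the sets `N d`, `d ∈ D`, cover the space. -/
theorem result :
    (∃ (P : Type) (_ : Preorder P), Nonempty P ∧ ∀ p : P,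
      p ∈ Pool.Agent.Helper292.ForceCH.OmegaOnePreserved P ∧
      p ∈ Pool.Agent.Helper292.ForceCH.CHHolds P) ∧
    (Cardinal.aleph 1 = Cardinal.continuum.{0} →
      ∃ (X : Type) (_ : TopologicalSpace X), T3Space X ∧ HereditarilyLindelofSpace X ∧
        ∃ N : X → Set X, (∀ x, IsClopen (N x) ∧ x ∈ N x) ∧
          ∀ D : Set X, DiscreteTopology D → (⋃ d ∈ D, N d) ≠ Set.univ) := by
  refine ⟨?_, fun h => ?_⟩
  · obtain ⟨P, i, h1, h2⟩ := Pool.Agent.Helper292.ForceCH.exists_forcing
    exact ⟨P, i, h1, fun p => ⟨(h2 p).1, (h2 p).2.2⟩⟩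
  · obtain ⟨X, h1, h2⟩ := H299Dual.main_ch h
    exact ⟨X, inferInstance, inferInstance, h1, h2⟩

end Pool.Agent.Results.MP_414e75_gt.AConsistentNo
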