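import Pool.Agent.H299Z.Dual.Haus

set_option autoImplicit false

namespace Pool.Agent.Results.MP_414e75_gt.HausdorffZFC

/-- There is a Hausdorff hereditarily Lindelof space with an open neighbourhood assignment `N` such
that for no discrete subspace `D` (closed or not) the sets `N d`, `d ∈ D`, cover the space. -/
theorem result :
    ∃ (X : Type) (_ : TopologicalSpace X), T2Space X ∧ HereditarilyLindelofSpace X ∧
      ∃ N : X → Set X, (∀ x, IsOpen (N x) ∧ x ∈ N x) ∧
        ∀ D : Set X, DiscreteTopology D → (⋃ d ∈ D, N d) ≠ Set.univ :=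
  H299Dual.main_t2

end Pool.Agent.Results.MP_414e75_gt.HausdorffZFC
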